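import Mathlib

set_option autoImplicit false

namespace Pool.Agent.Results.MP_4101c8_co.ComplementCounterexample

open Finset

/-- `S` is a total dominating set of `G`: every vertex of `G` is adjacent to a vertex of `S`. -/
def IsTotalDominating {V : Type} (G : SimpleGraph V) (S : Finset V) : Prop :=
  ∀ v : V, ∃ w ∈ S, G.Adj v w

/-- The total domination number of `G`: the least cardinality of a total dominating set. -/
noncomputable def totalDominationNumber {V : Type} (G : SimpleGraph V) : ℕ :=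
  sInf {k : ℕ | ∃ S : Finset V, S.card = k ∧ IsTotalDominating G S}

open Classical in
/-- `δ*(G)`, the minimum of the minimum degrees of `G` and of its complement. -/
noncomputable def deltaStar {V : Type} [Fintype V] (G : SimpleGraph V) : ℕ :=
  min G.minDegree Gᶜ.minDegree

/-! ### The graph -/

/-- `i` and `j` are adjacent in the bipartite graph on the points and the lines of the Fano plane:
the point `i` is not on the line `j`, `j + 1`, `j + 3`. -/
def inc (i j : ZMod 7) : Prop := i - j ∈ ({2, 4, 5, 6} : Finset (ZMod 7))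

instance (i j : ZMod 7) : Decidable (inc i j) := by unfold inc; infer_instance

/-- `k` disjoint copies of the incidence graph of the complement of the Fano plane. -/
def H (k : ℕ) : SimpleGraph (Fin k × Bool × ZMod 7) where
  Adj x y := x.1 = y.1 ∧ ((x.2.1 = false ∧ y.2.1 = true ∧ inc x.2.2 y.2.2) ∨
    (x.2.1 = true ∧ y.2.1 = false ∧ inc y.2.2 x.2.2))
  symm.symm := by
    rintro x y ⟨h1, h2 | h2⟩
    · exact ⟨h1.symm, Or.inr ⟨h2.2.1, h2.1, h2.2.2⟩⟩
    · exact ⟨h1.symm, Or.inl ⟨h2.2.1, h2.1, h2.2.2⟩⟩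
  loopless.irrefl := by
    rintro x ⟨_, h | h⟩
    · exact absurd (h.1.symm.trans h.2.1) (by decide)
    · exact absurd (h.1.symm.trans h.2.1) (by decide)

instance (k : ℕ) : DecidableRel (H k).Adj := by
  intro x y
  unfold H
  infer_instance

theorem transversal_left : ∀ T : Finset (ZMod 7), (∀ j, ∃ i ∈ T, inc i j) → 3 ≤ T.card := by
  decide +kernel

theorem transversal_right : ∀ T : Finset (ZMod 7), (∀ i, ∃ j ∈ T, inc i j) → 3 ≤ T.card := by
  decide +kernel

theorem card_left : ∀ i : ZMod 7, (univ.filter (fun j => inc i j)).card = 4 := by decide +kernel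

theorem card_right : ∀ j : ZMod 7, (univ.filter (fun i => inc i j)).card = 4 := by decide +kernel

theorem adj_false (k : ℕ) (a a' : Fin k) (b' : Bool) (i j : ZMod 7) :
    (H k).Adj (a, false, i) (a', b', j) ↔ a = a' ∧ b' = true ∧ inc i j := by
  show (a = a' ∧ ((false = false ∧ b' = true ∧ inc i j) ∨
    (false = true ∧ b' = false ∧ inc j i))) ↔ _
  simp

theorem adj_true (k : ℕ) (a a' : Fin k) (b' : Bool) (i j : ZMod 7) :
    (H k).Adj (a, true, i) (a', b', j) ↔ a = a' ∧ b' = false ∧ inc j i := by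
  show (a = a' ∧ ((true = false ∧ b' = true ∧ inc i j) ∨
    (true = true ∧ b' = false ∧ inc j i))) ↔ _
  simp

theorem degree_H (k : ℕ) (x : Fin k × Bool × ZMod 7) : (H k).degree x = 4 := by
  obtain ⟨a, b, i⟩ := x
  cases b with
  | false =>
    have : (H k).neighborFinset (a, false, i) =
        (univ.filter (fun j => inc i j)).image (fun j => (a, true, j)) := by
      ext ⟨a', b', j⟩
      rw [SimpleGraph.mem_neighborFinset, adj_false]
      simp only [mem_image, mem_filter, mem_univ, true_and, Prod.mk.injEq]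
      constructor
      · rintro ⟨h1, h2, h3⟩
        exact ⟨j, h3, h1, h2.symm, rfl⟩
      · rintro ⟨j', h, h1, h2, rfl⟩
        exact ⟨h1, h2.symm, h⟩
    rw [← SimpleGraph.card_neighborFinset_eq_degree, this,
      card_image_of_injective _ (fun x y h => by simpa using h), card_left]
  | true =>
    have : (H k).neighborFinset (a, true, i) =
        (univ.filter (fun j => inc j i)).image (fun j => (a, false, j)) := by
      ext ⟨a', b', j⟩
      rw [SimpleGraph.mem_neighborFinset, adj_true]
      simp only [mem_image, mem_filter, mem_univ, true_and, Prod.mk.injEq]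
      constructor
      · rintro ⟨h1, h2, h3⟩
        exact ⟨j, h3, h1, h2.symm, rfl⟩
      · rintro ⟨j', h, h1, h2, rfl⟩
        exact ⟨h1, h2.symm, h⟩
    rw [← SimpleGraph.card_neighborFinset_eq_degree, this,
      card_image_of_injective _ (fun x y h => by simpa using h), card_right]

theorem card_V (k : ℕ) : Fintype.card (Fin k × Bool × ZMod 7) = 14 * k := by
  simp [ZMod.card]
  ring

theorem six_le (k : ℕ) (S : Finset (Fin k × Bool × ZMod 7)) (hS : IsTotalDominating (H k) S) :
    6 * k ≤ S.card := by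
  classical
  have hmap : ∀ x ∈ S, (x.1, x.2.1) ∈ (univ : Finset (Fin k × Bool)) := fun x _ => mem_univ _
  rw [card_eq_sum_card_fiberwise hmap]
  have h3 : ∀ p ∈ (univ : Finset (Fin k × Bool)),
      3 ≤ (S.filter (fun x => (x.1, x.2.1) = p)).card := by
    rintro ⟨a, b⟩ _
    have himg : ((S.filter (fun x => (x.1, x.2.1) = (a, b))).image (fun x => x.2.2)).card ≤
        (S.filter (fun x => (x.1, x.2.1) = (a, b))).card := card_image_le
    refine le_trans ?_ himg
    cases b with
    | false =>
      apply transversal_left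
      intro j
      obtain ⟨⟨a', b', i⟩, hw, hadj⟩ := hS (a, true, j)
      rw [adj_true] at hadj
      obtain ⟨rfl, rfl, h⟩ := hadj
      refine ⟨i, mem_image.mpr ?_, h⟩
      exact ⟨(a, false, i), mem_filter.mpr (And.intro hw rfl), rfl⟩
    | true =>
      apply transversal_right
      intro i
      obtain ⟨⟨a', b', j⟩, hw, hadj⟩ := hS (a, false, i)
      rw [adj_false] at hadj
      obtain ⟨rfl, rfl, h⟩ := hadj
      refine ⟨j, mem_image.mpr ?_, h⟩
      exact ⟨(a, true, j), mem_filter.mpr (And.intro hw rfl), rfl⟩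
  calc 6 * k = ∑ p ∈ (univ : Finset (Fin k × Bool)), 3 := by
        rw [sum_const, card_univ]
        simp
        ring
    _ ≤ _ := sum_le_sum h3

theorem tdn_ge {V : Type} (G : SimpleGraph V) (m : ℕ) (S : Finset V) (hS : IsTotalDominating G S)
    (h : ∀ T : Finset V, IsTotalDominating G T → m ≤ T.card) : m ≤ totalDominationNumber G := by
  have hne : {k : ℕ | ∃ S : Finset V, S.card = k ∧ IsTotalDominating G S}.Nonempty :=
    ⟨S.card, S, rfl, hS⟩
  refine le_csInf hne ?_
  rintro k ⟨T, rfl, hT⟩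
  exact h T hT

theorem adj_of_ne (k : ℕ) (x y : Fin k × Bool × ZMod 7) (h : x.1 ≠ y.1) : (H k)ᶜ.Adj x y := by
  rw [SimpleGraph.compl_adj]
  exact ⟨fun e => h (by rw [e]), fun e => h e.1⟩

theorem exists_other (k : ℕ) (hk : 2 ≤ k) (a : Fin k) : ∃ c : Fin k, c ≠ a ∧ c = c := by
  by_cases h : a.1 = 0
  · refine ⟨⟨1, by omega⟩, ?_, rfl⟩
    intro e
    have := congrArg Fin.val e
    simp only at this
    omega
  · refine ⟨⟨0, by omega⟩, ?_, rfl⟩
    intro e
    have := congrArg Fin.val e
    simp only at this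
    omega

theorem connected (k : ℕ) (hk : 2 ≤ k) : (H k)ᶜ.Connected := by
  have : Nonempty (Fin k × Bool × ZMod 7) := ⟨(⟨0, by omega⟩, false, 0)⟩
  refine SimpleGraph.Connected.mk ?_
  intro x y
  by_cases h : x.1 = y.1
  · obtain ⟨c, hc, _⟩ := exists_other k hk x.1
    have h1 : (H k)ᶜ.Adj x (c, false, 0) := adj_of_ne k _ _ (Ne.symm hc)
    have h2 : (H k)ᶜ.Adj (c, false, 0) y := adj_of_ne k _ _ (by rw [← h]; exact hc)
    exact h1.reachable.trans h2.reachable
  · exact (adj_of_ne k x y h).reachable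

theorem min_deg_compl_compl (k : ℕ) (hk : 2 ≤ k) (inst : DecidableRel (H k)ᶜᶜ.Adj) :
    (H k)ᶜᶜ.minDegree = 4 := by
  have : Nonempty (Fin k × Bool × ZMod 7) := ⟨(⟨0, by omega⟩, false, 0)⟩
  have h0 : ∀ x, (H k)ᶜᶜ.degree x = 4 := by
    intro x
    have h1 : (H k)ᶜ.degree x = Fintype.card (Fin k × Bool × ZMod 7) - 1 - (H k).degree x := by
      rw [← SimpleGraph.degree_compl]
    have h2 : (H k)ᶜᶜ.degree x = Fintype.card (Fin k × Bool × ZMod 7) - 1 - (H k)ᶜ.degree x := by
      rw [← SimpleGraph.degree_compl]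
    rw [h2, h1, card_V, degree_H]
    omega
  apply le_antisymm
  · exact le_trans ((H k)ᶜᶜ.minDegree_le_degree (⟨0, by omega⟩, false, 0)) (h0 _).le
  · exact SimpleGraph.le_minDegree_of_forall_le_degree _ 4 (fun x => (h0 x).ge)

theorem min_deg_compl (k : ℕ) (hk : 2 ≤ k) (inst : DecidableRel (H k)ᶜ.Adj) :
    4 ≤ (H k)ᶜ.minDegree := by
  have : Nonempty (Fin k × Bool × ZMod 7) := ⟨(⟨0, by omega⟩, false, 0)⟩
  refine SimpleGraph.le_minDegree_of_forall_le_degree _ 4 (fun x => ?_)
  have h1 : (H k)ᶜ.degree x = Fintype.card (Fin k × Bool × ZMod 7) - 1 - (H k).degree x := by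
    rw [← SimpleGraph.degree_compl]
  rw [h1, card_V, degree_H]
  omega

/-- For every `k ≥ 2` the complement of `k` disjoint copies of the incidence graph of the complement
of the Fano plane is a connected graph of order `14 k` with `δ* = 4`, and the two total domination
numbers are at least `2` and `6 k`. -/
theorem family (k : ℕ) (hk : 2 ≤ k) :
    (H k)ᶜ.Connected ∧ deltaStar (H k)ᶜ = 4 ∧ 2 ≤ totalDominationNumber (H k)ᶜ ∧
      6 * k ≤ totalDominationNumber (H k)ᶜᶜ := by
  classical
  have : Nonempty (Fin k × Bool × ZMod 7) := ⟨(⟨0, by omega⟩, false, 0)⟩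
  refine ⟨connected k hk, ?_, ?_, ?_⟩
  · unfold deltaStar
    apply le_antisymm
    · refine le_trans (min_le_right _ _) (le_of_eq ?_)
      exact min_deg_compl_compl k hk _
    · refine le_min ?_ (le_of_eq ?_)
      · exact min_deg_compl k hk _
      · exact (min_deg_compl_compl k hk _).symm
  · refine tdn_ge _ 2 univ ?_ ?_
    · intro x
      obtain ⟨c, hc, _⟩ := exists_other k hk x.1
      exact ⟨(c, false, 0), mem_univ _, adj_of_ne k _ _ (Ne.symm hc)⟩
    · intro T hT
      obtain ⟨x, hx, _⟩ := hT (⟨0, by omega⟩, false, 0)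
      obtain ⟨y, hy, hxy⟩ := hT x
      have : 1 < T.card := one_lt_card.mpr ⟨x, hx, y, hy, hxy.ne⟩
      omega
  · rw [compl_compl]
    refine tdn_ge _ (6 * k) univ ?_ (six_le k)
    intro x
    have : 0 < (H k).degree x := by rw [degree_H]; norm_num
    rw [SimpleGraph.degree_pos_iff_exists_adj] at this
    obtain ⟨w, hw⟩ := this
    exact ⟨w, mem_univ _, hw⟩

/-- Both parts of the conjecture fail as stated: for every `n₀` there is a connected graph of order
`n ≥ n₀` with `δ* = 4` for which the sum of the two total domination numbers is more than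
`2 n / 5 + 2` and their product is more than `4 n / 5`; in fact the sum is at least `3 n / 7 + 2`
and the product at least `6 n / 7`. -/
theorem result :
    (¬ ∃ n₀ : ℕ, ∀ (V : Type) [Fintype V] (G : SimpleGraph V), n₀ ≤ Fintype.card V →
      G.Connected → deltaStar G = 4 →
      (totalDominationNumber G : ℝ) + totalDominationNumber Gᶜ ≤
        2 * (Fintype.card V : ℝ) / 5 + 2) ∧
    (¬ ∃ n₀ : ℕ, ∀ (V : Type) [Fintype V] (G : SimpleGraph V), n₀ ≤ Fintype.card V →
      G.Connected → deltaStar G = 4 →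
      (totalDominationNumber G : ℝ) * totalDominationNumber Gᶜ ≤
        4 * (Fintype.card V : ℝ) / 5) ∧
    (∀ k : ℕ, 2 ≤ k → ∃ (V : Type) (_ : Fintype V) (G : SimpleGraph V),
      Fintype.card V = 14 * k ∧ G.Connected ∧ deltaStar G = 4 ∧
      3 * (Fintype.card V : ℝ) / 7 + 2 ≤
        (totalDominationNumber G : ℝ) + totalDominationNumber Gᶜ ∧
      6 * (Fintype.card V : ℝ) / 7 ≤
        (totalDominationNumber G : ℝ) * totalDominationNumber Gᶜ) := by
  have key : ∀ k : ℕ, 2 ≤ k → (H k)ᶜ.Connected ∧ deltaStar (H k)ᶜ = 4 ∧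
      (2 : ℝ) ≤ totalDominationNumber (H k)ᶜ ∧
      6 * (k : ℝ) ≤ totalDominationNumber (H k)ᶜᶜ := by
    intro k hk
    obtain ⟨h1, h2, h3, h4⟩ := family k hk
    refine ⟨h1, h2, by exact_mod_cast h3, by exact_mod_cast h4⟩
  refine ⟨?_, ?_, ?_⟩
  · rintro ⟨n₀, h⟩
    obtain ⟨h1, h2, h3, h4⟩ := key (n₀ + 2) (by omega)
    have := h _ (H (n₀ + 2))ᶜ (by rw [card_V]; omega) h1 h2
    rw [card_V] at this
    push_cast at this h4
    have hn : (0 : ℝ) ≤ n₀ := Nat.cast_nonneg _
    linarith
  · rintro ⟨n₀, h⟩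
    obtain ⟨h1, h2, h3, h4⟩ := key (n₀ + 2) (by omega)
    have := h _ (H (n₀ + 2))ᶜ (by rw [card_V]; omega) h1 h2
    rw [card_V] at this
    push_cast at this h4
    have hn : (0 : ℝ) ≤ n₀ := Nat.cast_nonneg _
    nlinarith
  · intro k hk
    obtain ⟨h1, h2, h3, h4⟩ := key k hk
    have hn : (0 : ℝ) ≤ k := Nat.cast_nonneg _
    refine ⟨_, inferInstance, (H k)ᶜ, card_V k, h1, h2, ?_, ?_⟩
    · rw [card_V]
      push_cast
      linarith
    · rw [card_V]
      push_cast
      nlinarith

end Pool.Agent.Results.MP_4101c8_co.ComplementCounterexample
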